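import Pool.Agent.H286.PG.Conc

/-!
# Products of two subgroups of exponent `p` can have exponent `p ^ 3`

Let `Q = C_p wr C_p` with the base group `E` and the top group generated by `a`. It is the product of
`A₁`, generated by `a` and the elements of `E` with product of the coordinates one, and of
`B₁ ≅ C_p`, one of the coordinate subgroups of `E`; both have exponent `p`. Let `N` be the group of
the functions `f : Q → ℤ/p` whose sum over `t ^ j x`, `0 ≤ j < p`, is zero for all conjugates `t` of
the nontrivial elements of `B₁` and all `x`. Then `G = N ⋊ Q` is the product of `A = A₁` and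
`B = N ⋊ B₁`, and `B` has exponent `p`. The function `f₀ (v, k) = v_0 v_1 ^ (p - 2)` for `k = 0`, and `0`
for `k ≠ 0`, is in `N` for odd `p`, and `(f₀, g)` has order `p ^ 3` for the element `g = e_0 a` of order
`p ^ 2`, since `∑_(i < p ^ 2) f₀ (g ^ (-i)) = ∑_m (-m) ^ (p - 1) = -1`.
-/

set_option autoImplicit false

namespace Pool.Agent.Results.MP_38b55a_al.ExponentCube

/-- For every odd prime `p` there is a finite `p`-group `G = A B`, with subgroups `A` and `B` in which
every element has `p`-th power one, of exponent `p ^ 3`. -/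
theorem result : ∀ p : ℕ, p.Prime → p ≠ 2 →
    ∃ (G : Type) (_ : Group G) (_ : Finite G), IsPGroup p G ∧ ∃ A B : Subgroup G,
      (∀ a ∈ A, a ^ p = 1) ∧ (∀ b ∈ B, b ^ p = 1) ∧
        (∀ g : G, ∃ a ∈ A, ∃ b ∈ B, g = a * b) ∧ Monoid.exponent G = p ^ 3 := by
  intro p hp hp2
  have : Fact p.Prime := ⟨hp⟩
  exact Pool.Agent.H286.PG.main hp2

end Pool.Agent.Results.MP_38b55a_al.ExponentCube
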